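import Pool.Agent.H789R5.RF.Rank
import Pool.Agent.H789R5.RF.Ext

/-!
# Rigid vertex sets and the two extension steps in dimension three
-/

set_option autoImplicit false

namespace Pool.Agent.TH349.Rig

open Finset Pool.Agent.H789R5 Pool.Agent.H283R2.DR

variable {V : Type}

/-- the edges of `G` inside `U` -/
def ins (G : SimpleGraph V) (U : Finset V) : SimpleGraph V where
  Adj a b := G.Adj a b ∧ a ∈ U ∧ b ∈ U
  symm := ⟨fun _ _ h => ⟨h.1.symm, h.2.2, h.2.1⟩⟩
  loopless := ⟨fun _ h => h.1.ne rfl⟩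

variable [Fintype V]

/-- the graph `G` is rigid on the set `U` at the placement `p` -/
def ri (p : V → Fin 3 → ℝ) (G : SimpleGraph V) (U : Finset V) : Prop :=
  mo (ins G U) p + 3 * U.card ≤ 6 + 3 * Fintype.card V

theorem ri_mono {p : V → Fin 3 → ℝ} {G H : SimpleGraph V} {U : Finset V}
    (h : ∀ a ∈ U, ∀ b ∈ U, H.Adj a b → G.Adj a b) (hr : ri p H U) : ri p G U := by
  unfold ri at *
  have h1 : mo (ins G U) p ≤ mo (ins H U) p := by
    apply mo_anti
    intro a b hab
    exact ⟨h a hab.2.1 b hab.2.2 hab.1, hab.2.1, hab.2.2⟩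
  omega

open Classical in
theorem mo_step {p : V → Fin 3 → ℝ} (hp : MG p) {G : SimpleGraph V} {U T : Finset V} {v : V}
    (hv : v ∉ U) (hTU : T ⊆ U) (hT : T.card ≤ 3) (hadj : ∀ z ∈ T, G.Adj v z) :
    mo (ins G (insert v U)) p + T.card ≤ mo (ins G U) p := by
  have h1 := ext0 hp (ins G (insert v U)) v T hT (fun z hz =>
    ⟨hadj z hz, mem_insert_self _ _, mem_insert_of_mem (hTU hz)⟩)
  have h2 : mo ((ins G (insert v U)).deleteIncidenceSet v) p ≤ mo (ins G U) p := by
    apply mo_anti
    intro a b hab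
    rw [SimpleGraph.deleteIncidenceSet_adj]
    have ha : a ≠ v := fun h => hv (h ▸ hab.2.1)
    have hb : b ≠ v := fun h => hv (h ▸ hab.2.2)
    exact ⟨⟨hab.1, mem_insert_of_mem hab.2.1, mem_insert_of_mem hab.2.2⟩, ha, hb⟩
  omega

open Classical in
theorem ri_ext0 {p : V → Fin 3 → ℝ} (hp : MG p) {G : SimpleGraph V} {U T : Finset V} {v : V}
    (hv : v ∉ U) (hTU : T ⊆ U) (hT : T.card = 3) (hadj : ∀ z ∈ T, G.Adj v z)
    (hr : ri p G U) : ri p G (insert v U) := by
  have h1 := mo_step hp hv hTU hT.le hadj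
  unfold ri at *
  rw [card_insert_of_notMem hv]
  omega

open Classical in
theorem ri_ext1 {p : V → Fin 3 → ℝ} (hp : MG p) {G : SimpleGraph V} {U N : Finset V} {v x y : V}
    (hv : v ∉ U) (hNU : N ⊆ U) (hN : N.card = 4) (hadj : ∀ z ∈ N, G.Adj v z)
    (hx : x ∈ N) (hy : y ∈ N) (hxy : x ≠ y)
    (hr : ri p (G ⊔ SimpleGraph.edge x y) U) : ri p G (insert v U) := by
  have h1 := ext1 hp (ins G (insert v U)) v N hN (fun z hz =>
    ⟨hadj z hz, mem_insert_self _ _, mem_insert_of_mem (hNU hz)⟩) hx hy hxy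
  have h2 : mo ((ins G (insert v U)).deleteIncidenceSet v ⊔ SimpleGraph.edge x y) p ≤
      mo (ins (G ⊔ SimpleGraph.edge x y) U) p := by
    apply mo_anti
    intro a b hab
    obtain ⟨h, ha', hb'⟩ := hab
    have ha : a ≠ v := fun h => hv (h ▸ ha')
    have hb : b ≠ v := fun h => hv (h ▸ hb')
    rw [SimpleGraph.sup_adj] at h ⊢
    rcases h with h | h
    · left
      rw [SimpleGraph.deleteIncidenceSet_adj]
      exact ⟨⟨h, mem_insert_of_mem ha', mem_insert_of_mem hb'⟩, ha, hb⟩
    · exact Or.inr h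
  unfold ri at *
  rw [card_insert_of_notMem hv]
  omega

open Classical in
theorem ri_tri {p : V → Fin 3 → ℝ} (hp : MG p) {G : SimpleGraph V} {x y z : V}
    (hxy : G.Adj x y) (hxz : G.Adj x z) (hyz : G.Adj y z) : ri p G {z, y, x} := by
  have e1 := mo_step hp (G := G) (U := {x}) (T := {x}) (v := y) (by simpa using hxy.ne')
    (Subset.refl _) (by simp) (by simpa using hxy.symm)
  have e2 := mo_step hp (G := G) (U := {y, x}) (T := {y, x}) (v := z)
    (by simp [hxz.ne', hyz.ne']) (Subset.refl _) (by rw [card_pair hxy.ne']; norm_num)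
    (by
      intro w hw
      rw [mem_insert, mem_singleton] at hw
      rcases hw with rfl | rfl
      · exact hyz.symm
      · exact hxz.symm)
  have e3 := mo_le (ins G {x}) p
  unfold ri
  rw [card_insert_of_notMem (by simp [hxz.ne', hyz.ne']), card_pair hxy.ne']
  rw [card_singleton] at e1
  rw [card_pair hxy.ne'] at e2
  omega

open Classical in
theorem ri_addall {p : V → Fin 3 → ℝ} (hp : MG p) {G : SimpleGraph V} {U T : Finset V}
    (hTU : T ⊆ U) (hT : 3 ≤ T.card) (B : Finset V) (hadj : ∀ b ∈ B, b ∉ U → ∀ z ∈ T, G.Adj b z)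
    (hr : ri p G U) : ri p G (B ∪ U) := by
  obtain ⟨T', hT', hc⟩ := exists_subset_card_eq hT
  induction B using Finset.induction_on with
  | empty => simpa using hr
  | insert b B hb ih =>
    have ih' := ih (fun b' hb' => hadj b' (mem_insert_of_mem hb'))
    rw [insert_union]
    by_cases hbU : b ∈ B ∪ U
    · rw [insert_eq_of_mem hbU]
      exact ih'
    · refine ri_ext0 hp hbU (T := T') ?_ hc ?_ ih'
      · exact (hT'.trans hTU).trans subset_union_right
      · intro z hz
        exact hadj b (mem_insert_self _ _) (fun h => hbU (mem_union_right _ h)) z (hT' hz)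

end Pool.Agent.TH349.Rig
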