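import Pool.Agent.TH349.Rig.Two

/-!
# Graphs without induced paths with four vertices
-/

set_option autoImplicit false


namespace Pool.Agent.TH349.Rig

open Finset Pool.Agent.H789R5 Pool.Agent.H283R2.DR

section seinsche

variable {V : Type}

/-- `G` has no induced path with four vertices: whenever `a b c d` is a walk, one of `ac`, `bd`,
`ad` is an edge. (If the four vertices are not different, then this holds anyway.) -/
def P4Free (G : SimpleGraph V) : Prop :=
  ∀ a b c d : V, G.Adj a b → G.Adj b c → G.Adj c d → G.Adj a c ∨ G.Adj b d ∨ G.Adj a d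

/-- the set `U` is split in two nonempty parts without edges between them -/
def Split (G : SimpleGraph V) (U : Set V) : Prop :=
  ∃ C D : Set V, C.Nonempty ∧ D.Nonempty ∧ Disjoint C D ∧ C ∪ D = U ∧ ∀ c ∈ C, ∀ d ∈ D, ¬ G.Adj c d

theorem P4Free.compl {G : SimpleGraph V} (h : P4Free G) : P4Free Gᶜ := by
  intro a b c d hab hbc hcd
  by_contra hcon
  push Not at hcon
  obtain ⟨h1, h2, h3⟩ := hcon
  rw [SimpleGraph.compl_adj] at *
  have hac : a ≠ c := by
    rintro rfl
    exact h3 hcd
  have hbd : b ≠ d := by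
    rintro rfl
    exact h3 hab
  have had : a ≠ d := by
    rintro rfl
    exact h1 ⟨hac, fun h => hcd.2 h.symm⟩
  have h1' : G.Adj c a := by
    by_contra hc
    exact h1 ⟨hac, fun h => hc h.symm⟩
  have h2' : G.Adj d b := by
    by_contra hc
    exact h2 ⟨hbd, fun h => hc h.symm⟩
  have h3' : G.Adj a d := by
    by_contra hc
    exact h3 ⟨had, hc⟩
  rcases h c a d b h1' h3' h2' with h | h | h
  · exact hcd.2 h
  · exact hab.2 h
  · exact hbc.2 h.symm

/-- adding a vertex to a split set -/
theorem split_step {G : SimpleGraph V} (h : P4Free G) {U : Set V} {v : V} (hv : v ∉ U)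
    (hs : Split G U) : Split G (insert v U) ∨ Split Gᶜ (insert v U) := by
  -- one part contains a neighbour and a non-neighbour of `v`, the other one a neighbour
  have main : ∀ C D : Set V, Disjoint C D → C ∪ D = U → (∀ c ∈ C, ∀ d ∈ D, ¬ G.Adj c d) →
      (∃ z ∈ C, ¬ G.Adj v z) → (∃ d ∈ D, G.Adj v d) → Split G (insert v U) := by
    intro C D hCD hU hn ⟨z, hz, hvz⟩ ⟨d, hd, hvd⟩
    refine ⟨{c ∈ C | ¬ G.Adj v c}, insert v ({c ∈ C | G.Adj v c} ∪ D), ⟨z, hz, hvz⟩,
      ⟨v, Set.mem_insert _ _⟩, ?_, ?_, ?_⟩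
    · rw [Set.disjoint_left]
      rintro c ⟨hc, hvc⟩ hc'
      rcases hc' with rfl | hc' | hc'
      · exact hv (hU ▸ Or.inl hc)
      · exact hvc hc'.2
      · exact Set.disjoint_left.1 hCD hc hc'
    · ext w
      rw [← hU]
      constructor
      · rintro (hw | hw | hw | hw)
        · exact Or.inr (Or.inl hw.1)
        · exact Or.inl hw
        · exact Or.inr (Or.inl hw.1)
        · exact Or.inr (Or.inr hw)
      · rintro (hw | hw | hw)
        · exact Or.inr (Or.inl hw)
        · by_cases hvw : G.Adj v w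
          · exact Or.inr (Or.inr (Or.inl ⟨hw, hvw⟩))
          · exact Or.inl ⟨hw, hvw⟩
        · exact Or.inr (Or.inr (Or.inr hw))
    · rintro c ⟨hc, hvc⟩ w hw hcw
      rcases hw with rfl | hw | hw
      · exact hvc hcw.symm
      · -- the path `d v w c`
        rcases h d v w c hvd.symm hw.2 hcw.symm with h' | h' | h'
        · exact hn w hw.1 d hd h'.symm
        · exact hvc h'
        · exact hn c hc d hd h'.symm
      · exact hn c hc w hw hcw
  obtain ⟨C, D, hC, hD, hCD, hU, hn⟩ := hs
  by_cases hall : ∀ w ∈ U, G.Adj v w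
  · right
    refine ⟨{v}, U, ⟨v, rfl⟩, hC.mono (hU ▸ Set.subset_union_left), ?_, ?_, ?_⟩
    · rw [Set.disjoint_singleton_left]
      exact hv
    · rw [Set.singleton_union]
    · rintro c rfl d hd hcd
      rw [SimpleGraph.compl_adj] at hcd
      exact hcd.2 (hall d hd)
  left
  push Not at hall
  obtain ⟨z, hz, hvz⟩ := hall
  by_cases hvC : ∃ c ∈ C, G.Adj v c
  · by_cases hvD : ∃ d ∈ D, G.Adj v d
    · rw [← hU] at hz
      rcases hz with hz | hz
      · exact main C D hCD hU hn ⟨z, hz, hvz⟩ hvD
      · exact main D C hCD.symm (by rw [Set.union_comm]; exact hU)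
          (fun d hd c hc h => hn c hc d hd h.symm) ⟨z, hz, hvz⟩ hvC
    · push Not at hvD
      refine ⟨insert v C, D, ⟨v, Set.mem_insert _ _⟩, hD, ?_, ?_, ?_⟩
      · rw [Set.disjoint_insert_left]
        exact ⟨fun h' => hv (hU ▸ Or.inr h'), hCD⟩
      · rw [Set.insert_union, hU]
      · rintro c (rfl | hc) d hd
        · exact hvD d hd
        · exact hn c hc d hd
  · push Not at hvC
    refine ⟨C, insert v D, hC, ⟨v, Set.mem_insert _ _⟩, ?_, ?_, ?_⟩
    · rw [Set.disjoint_insert_right]
      exact ⟨fun h' => hv (hU ▸ Or.inl h'), hCD⟩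
    · rw [Set.union_insert, hU]
    · rintro c hc d (rfl | hd)
      · exact fun h => hvC c hc h.symm
      · exact hn c hc d hd

/-- **Seinsche's theorem** -/
theorem seinsche {G : SimpleGraph V} (h : P4Free G) (U : Set V) (hfin : U.Finite)
    (hU : U.Nontrivial) : Split G U ∨ Split Gᶜ U := by
  induction U, hfin using Set.Finite.induction_on with
  | empty => exact absurd hU Set.not_nontrivial_empty
  | @insert v U hv _ ih =>
    by_cases hU' : U.Nontrivial
    · rcases ih hU' with hs | hs
      · exact split_step h hv hs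
      · have := split_step h.compl hv hs
        rw [compl_compl] at this
        exact this.symm
    · rw [Set.not_nontrivial_iff] at hU'
      have hne : U.Nonempty := by
        by_contra hcon
        rw [Set.not_nonempty_iff_eq_empty] at hcon
        subst hcon
        simp at hU
      obtain ⟨u, rfl⟩ := (Set.exists_eq_singleton_iff_nonempty_subsingleton).2 ⟨hne, hU'⟩
      have hvu : v ≠ u := hv
      have hdis : Disjoint ({v} : Set V) {u} := by
        rw [Set.disjoint_singleton]
        exact hvu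
      by_cases hadj : G.Adj v u
      · right
        refine ⟨{v}, {u}, ⟨v, rfl⟩, ⟨u, rfl⟩, hdis, by rw [Set.singleton_union], ?_⟩
        rintro c rfl d rfl hcd
        rw [SimpleGraph.compl_adj] at hcd
        exact hcd.2 hadj
      · left
        refine ⟨{v}, {u}, ⟨v, rfl⟩, ⟨u, rfl⟩, hdis, by rw [Set.singleton_union], ?_⟩
        rintro c rfl d rfl hcd
        exact hadj hcd

end seinsche

variable {V : Type} [Fintype V]

open Classical in
/-- joins with two sides of at least two vertices -/
theorem rigid_sides {p : V → Fin 3 → ℝ} (hp : MG p) {G : SimpleGraph V} {A : Finset V}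
    (hJ : Jn G A Aᶜ) (hA : 2 ≤ A.card) (hB : 2 ≤ (Aᶜ).card) (h3 : ThreeConnected G)
    (hE : 3 * Fintype.card V ≤ G.edgeSet.ncard + 6) : mo G p ≤ 6 := by
  by_cases hA2 : A.card = 2
  · refine rigid_two hp hJ hA2 hB ?_ hE
    have := h3.2 A hA2.le
    rwa [← coe_compl] at this
  by_cases hB2 : (Aᶜ).card = 2
  · have hJ' : Jn G Aᶜ (Aᶜ)ᶜ := by
      rw [compl_compl]
      exact hJ.symm
    refine rigid_two hp hJ' hB2 (by rwa [compl_compl]) ?_ hE
    have := h3.2 Aᶜ hB2.le
    rwa [← coe_compl] at this
  exact rigid_of_join hp hJ (by omega) (by omega) hE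

open Classical in
/-- a connected induced subgraph is not split -/
theorem not_split {G : SimpleGraph V} {U : Set V} (h : (G.induce U).Connected) : ¬ Split G U := by
  rintro ⟨C, D, ⟨c, hc⟩, ⟨d, hd⟩, hCD, hU, hn⟩
  have hcU : c ∈ U := hU ▸ Or.inl hc
  have hdU : d ∈ U := hU ▸ Or.inr hd
  obtain ⟨q⟩ := h.preconnected ⟨c, hcU⟩ ⟨d, hdU⟩
  obtain ⟨e, -, he1, he2⟩ := q.exists_boundary_dart {z | (z : V) ∈ C} hc
    (fun h' => Set.disjoint_left.1 hCD h' hd)
  have h1 : (e.fst : V) ∈ C := he1
  have h2 : (e.snd : V) ∈ D := by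
    have h3 : (e.snd : V) ∈ C ∪ D := hU ▸ e.snd.2
    rcases h3 with h3 | h3
    · exact absurd h3 he2
    · exact h3
  exact hn _ h1 _ h2 e.adj

open Classical in
theorem join_of_split {G : SimpleGraph V} {U : Set V} (h : Split Gᶜ U) :
    ∃ C D : Finset V, C.Nonempty ∧ D.Nonempty ∧ Jn G C D ∧ ((C ∪ D : Finset V) : Set V) = U := by
  obtain ⟨C, D, hC, hD, hCD, hU, hn⟩ := h
  refine ⟨C.toFinset, D.toFinset, by simpa using hC, by simpa using hD, ⟨?_, ?_⟩, ?_⟩
  · rw [Set.disjoint_toFinset]
    exact hCD
  · intro c hc d hd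
    rw [Set.mem_toFinset] at hc hd
    by_contra hcon
    refine hn c hc d hd ?_
    rw [SimpleGraph.compl_adj]
    exact ⟨fun h => Set.disjoint_left.1 hCD hc (h ▸ hd), hcon⟩
  · rw [coe_union, Set.coe_toFinset, Set.coe_toFinset]
    exact hU

open Classical in
/-- cographs -/
theorem rigid_cograph {p : V → Fin 3 → ℝ} (hp : MG p) {G : SimpleGraph V} (hG : P4Free G)
    (h3 : ThreeConnected G) (hE : 3 * Fintype.card V ≤ G.edgeSet.ncard + 6) : mo G p ≤ 6 := by
  have h4 := h3.1
  -- any join decomposition has a part of one vertex only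
  have key : ∀ C D : Finset V, Jn G C D → C ∪ D = univ → 2 ≤ C.card → 2 ≤ D.card → mo G p ≤ 6 := by
    intro C D hJ hCD hC hD
    have hDC : D = Cᶜ := by
      ext w
      rw [mem_compl]
      constructor
      · exact fun hw hw' => disjoint_left.1 hJ.1 hw' hw
      · intro hw
        have : w ∈ C ∪ D := hCD ▸ mem_univ w
        rcases mem_union.1 this with h | h
        · exact absurd h hw
        · exact h
    subst hDC
    exact rigid_sides hp hJ hC hD h3 hE
  have hcard : ∀ C D : Finset V, Jn G C D → (C ∪ D).card = C.card + D.card :=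
    fun C D hJ => card_union_of_disjoint hJ.1
  have huniv : (Set.univ : Set V).Nontrivial := by
    rw [Set.nontrivial_univ_iff, ← Fintype.one_lt_card_iff_nontrivial]
    omega
  -- the main case
  have main : ∀ (v : V) (D : Finset V), Jn G {v} D → ({v} : Finset V) ∪ D = univ →
      mo G p ≤ 6 := by
    intro v D hJ hU
    have hDv : (D : Set V) = ({v} : Set V)ᶜ := by
      ext w
      rw [mem_coe, Set.mem_compl_iff, Set.mem_singleton_iff]
      constructor
      · rintro hw rfl
        exact disjoint_left.1 hJ.1 (mem_singleton_self _) hw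
      · intro hw
        have : w ∈ ({v} : Finset V) ∪ D := hU ▸ mem_univ w
        rcases mem_union.1 this with h | h
        · exact absurd (mem_singleton.1 h) hw
        · exact h
    have hDc : 3 ≤ D.card := by
      have h1 := hcard {v} D hJ
      rw [hU, card_univ, card_singleton] at h1
      omega
    have hcon : (G.induce (D : Set V)).Connected := by
      have := h3.2 {v} (by simp)
      rw [coe_singleton, ← hDv] at this
      exact this
    rcases seinsche hG (D : Set V) (Set.toFinite _) (one_lt_card_iff_nontrivial.1 (by omega)) with hs | hs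
    · exact absurd hs (not_split hcon)
    obtain ⟨C', D', hC', hD', hJ', hU'⟩ := join_of_split hs
    rw [coe_inj] at hU'
    have hc' := hcard C' D' hJ'
    rw [hU'] at hc'
    have hC1 := card_pos.2 hC'
    have hD1 := card_pos.2 hD'
    have fin : ∀ C' D' : Finset V, Jn G C' D' → C' ∪ D' = D → 1 ≤ C'.card → 2 ≤ D'.card →
        mo G p ≤ 6 := by
      intro C' D' hJ' hU' h1 h2
      have hvC : v ∉ C' := fun h => disjoint_left.1 hJ.1 (mem_singleton_self v)
        (hU' ▸ mem_union_left _ h)
      have hvD : v ∉ D' := fun h => disjoint_left.1 hJ.1 (mem_singleton_self v)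
        (hU' ▸ mem_union_right _ h)
      refine key (insert v C') D' ⟨?_, ?_⟩ ?_ ?_ h2
      · rw [disjoint_insert_left]
        exact ⟨hvD, hJ'.1⟩
      · intro a ha b hb
        rw [mem_insert] at ha
        rcases ha with rfl | ha
        · exact hJ.2 a (mem_singleton_self a) b (hU' ▸ mem_union_right _ hb)
        · exact hJ'.2 a ha b hb
      · rw [insert_union, hU', ← hU, insert_eq]
      · rw [card_insert_of_notMem hvC]
        omega
    by_cases h2 : 2 ≤ D'.card
    · exact fin C' D' hJ' hU' hC1 h2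
    · exact fin D' C' hJ'.symm (by rw [union_comm]; exact hU') hD1 (by omega)
  rcases seinsche hG Set.univ (Set.toFinite _) huniv with hs | hs
  · exfalso
    refine not_split ?_ hs
    have := h3.2 ∅ (by simp)
    rwa [coe_empty, Set.compl_empty] at this
  obtain ⟨C, D, hC, hD, hJ, hU⟩ := join_of_split hs
  have hU' : C ∪ D = univ := by
    rw [← coe_inj, hU, coe_univ]
  have hC1 := card_pos.2 hC
  have hD1 := card_pos.2 hD
  by_cases hC2 : 2 ≤ C.card
  · by_cases hD2 : 2 ≤ D.card
    · exact key C D hJ hU' hC2 hD2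
    · obtain ⟨v, rfl⟩ := card_eq_one.1 (by omega : D.card = 1)
      exact main v C hJ.symm (by rw [union_comm]; exact hU')
  · obtain ⟨v, rfl⟩ := card_eq_one.1 (by omega : C.card = 1)
    exact main v D hJ hU'

open Classical in
/-- **the characterization** -/
theorem rigid_iff {G : SimpleGraph V} (h4 : 4 ≤ Fintype.card V)
    (hG : P4Free G ∨ ∃ A : Finset V, 2 ≤ A.card ∧ 2 ≤ (Aᶜ).card ∧ ∀ a ∈ A, ∀ b ∉ A, G.Adj a b) :
    GenRigid 3 G ↔ ThreeConnected G ∧ 3 * Fintype.card V ≤ G.edgeSet.ncard + 6 := by
  obtain ⟨p, hp⟩ := exists_mg V 3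
  have h6 : GenRigid 3 G ↔ mo G p ≤ 6 := by
    rw [genRigid_iff hp (by omega)]
  constructor
  · intro h
    refine ⟨threeConnected_of_rigid h4 h, ?_⟩
    have h1 := rank_le_edges G p
    have h2 := h6.1 h
    omega
  · rintro ⟨h3, hE⟩
    rw [h6]
    rcases hG with hG | ⟨A, hA, hB, hJ⟩
    · exact rigid_cograph hp hG h3 hE
    · exact rigid_sides hp ⟨disjoint_compl_right, fun a ha b hb => hJ a ha b (mem_compl.1 hb)⟩
        hA hB h3 hE

end Pool.Agent.TH349.Rig
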