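import Pool.Agent.TH349.Rig.Join

/-!
# The rank of a join
-/

set_option autoImplicit false


namespace Pool.Agent.TH349.Rig

open Finset Pool.Agent.H789R5 Pool.Agent.H283R2.DR

variable {V : Type}

open Classical in
/-- the edges of a join -/
theorem edges_join [Fintype V] {G : SimpleGraph V} {A : Finset V} (hJ : Jn G A Aᶜ) :
    G.edgeSet.ncard = A.card * (Aᶜ).card + (E2 G A).card + (E2 G Aᶜ).card := by
  have h1 : G.edgeSet = (((A ×ˢ Aᶜ).image fun x => s(x.1, x.2)) ∪ E2 G A ∪ E2 G Aᶜ :
      Finset (Sym2 V)) := by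
    ext e
    induction e using Sym2.ind with
    | _ x y =>
      rw [mem_coe, mem_union, mem_union, mem_E2, mem_E2, mem_image, SimpleGraph.mem_edgeSet]
      constructor
      · intro h
        by_cases hx : x ∈ A
        · by_cases hy : y ∈ A
          · exact Or.inl (Or.inr ⟨hx, hy, h⟩)
          · exact Or.inl (Or.inl ⟨(x, y), mem_product.2 ⟨hx, mem_compl.2 hy⟩, rfl⟩)
        · by_cases hy : y ∈ A
          · exact Or.inl (Or.inl ⟨(y, x), mem_product.2 ⟨hy, mem_compl.2 hx⟩, Sym2.eq_swap⟩)
          · exact Or.inr ⟨mem_compl.2 hx, mem_compl.2 hy, h⟩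
      · rintro ((⟨⟨a, b⟩, h, h'⟩ | h) | h)
        · obtain ⟨ha, hb⟩ := mem_product.1 h
          have := hJ.2 a ha b hb
          rw [← SimpleGraph.mem_edgeSet, ← h', SimpleGraph.mem_edgeSet]
          exact this
        · exact h.2.2
        · exact h.2.2
  rw [h1, Set.ncard_coe_finset, card_union_of_disjoint, card_union_of_disjoint,
    card_image_of_injOn, card_product]
  · rintro ⟨a, b⟩ h ⟨a', b'⟩ h' heq
    rw [mem_coe, mem_product] at h h'
    rw [Sym2.eq_iff] at heq
    rcases heq with heq | heq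
    · exact Prod.ext heq.1 heq.2
    · exfalso
      have h2 := h.1
      rw [heq.1] at h2
      exact (mem_compl.1 h'.2) h2
  · rw [disjoint_left]
    intro e he he'
    rw [mem_image] at he
    obtain ⟨⟨a, b⟩, h, rfl⟩ := he
    rw [mem_E2] at he'
    exact (mem_compl.1 (mem_product.1 h).2) he'.2.1
  · rw [disjoint_left]
    intro e he he'
    induction e using Sym2.ind with
    | _ x y =>
      rw [mem_E2] at he'
      rw [mem_union, mem_E2, mem_image] at he
      rcases he with ⟨⟨a, b⟩, h, h'⟩ | he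
      · have ha := (mem_product.1 h).1
        rw [Sym2.eq_iff] at h'
        rcases h' with ⟨h', _⟩ | ⟨h', _⟩
        · exact (mem_compl.1 he'.1) (h' ▸ ha)
        · exact (mem_compl.1 he'.2.1) (h' ▸ ha)
      · exact (mem_compl.1 he'.1) he.1

variable [Fintype V]

theorem ri_univ {p : V → Fin 3 → ℝ} {G : SimpleGraph V} : ri p G univ ↔ mo G p ≤ 6 := by
  have h : ins G univ = G := by
    ext a b
    exact ⟨fun h => h.1, fun h => ⟨h, mem_univ _, mem_univ _⟩⟩
  unfold ri
  rw [h, card_univ]
  omega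

theorem six_le {p : V → Fin 3 → ℝ} (hp : MG p) (h3 : 3 ≤ Fintype.card V) (G : SimpleGraph V) :
    6 ≤ mo G p := by
  have h1 : Module.finrank ℝ (LinearMap.range (TA.triv p)) = 3 * (3 + 1) / 2 := by
    rw [LinearMap.finrank_range_of_inj (triv_inj hp h3), finrank_triv]
  have h2 := Submodule.finrank_mono (TA.range_triv_le G p)
  rw [h1] at h2
  exact h2

theorem rank_le_edges (G : SimpleGraph V) (p : V → Fin 3 → ℝ) :
    3 * Fintype.card V ≤ mo G p + G.edgeSet.ncard := by
  have h1 := mo_le_add (G := (⊥ : SimpleGraph V)) (G' := G) p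
  have h2 : mo (⊥ : SimpleGraph V) p = 3 * Fintype.card V := by
    rw [← finrank_all (V := V) (d := 3)]
    have h3 : Mot (⊥ : SimpleGraph V) p = ⊤ := by
      rw [eq_top_iff]
      intro q _
      rw [mem_mot]
      intro u v huv
      exact absurd huv (by simp)
    unfold mo
    rw [h3, finrank_top]
  rw [h2] at h1
  simpa using h1

open Classical in
theorem rigid_of_join {p : V → Fin 3 → ℝ} (hp : MG p) {G : SimpleGraph V} {A : Finset V}
    (hJ : Jn G A Aᶜ) (hA : 3 ≤ A.card) (hB : 3 ≤ (Aᶜ).card)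
    (hE : 3 * Fintype.card V ≤ G.edgeSet.ncard + 6) : mo G p ≤ 6 := by
  rw [← ri_univ, ← union_compl A]
  apply join_rigid hp hJ hA hB
  have h1 := edges_join hJ
  have h2 := card_add_card_compl A
  rw [h2]
  omega

open Classical in
/-- **the rank of a join** -/
theorem rank_join {G : SimpleGraph V} {A : Finset V}
    (hJ : Jn G A Aᶜ) (hA : 3 ≤ A.card) (hB : 3 ≤ (Aᶜ).card) :
    genRank 3 G = min G.edgeSet.ncard (3 * Fintype.card V - 6) := by
  obtain ⟨p, hp⟩ := exists_mg V 3
  have h0 := genRank_add hp G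
  have h2 := card_add_card_compl A
  have h6 := six_le hp (by omega) G
  have hE := rank_le_edges G p
  by_cases hc : 3 * Fintype.card V ≤ G.edgeSet.ncard + 6
  · have h1 := rigid_of_join hp hJ hA hB hc
    omega
  push Not at hc
  -- enlarge the graph
  have h3 : 3 * Fintype.card V - 6 ≤ (⊤ : SimpleGraph V).edgeFinset.card := by
    rw [SimpleGraph.card_edgeFinset_top_eq_card_choose_two]
    obtain ⟨n, hn⟩ : ∃ n, Fintype.card V = n + 6 := ⟨Fintype.card V - 6, by omega⟩
    rw [hn, Nat.choose_two_right, Nat.le_div_iff_mul_le (by norm_num)]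
    have : n + 6 - 1 = n + 5 := by omega
    rw [this]
    have : 3 * (n + 6) - 6 = 3 * n + 12 := by omega
    rw [this]
    nlinarith
  obtain ⟨F, hF1, hF2, hF3⟩ := exists_subsuperset_card_eq
    (s := G.edgeFinset) (t := (⊤ : SimpleGraph V).edgeFinset) (n := 3 * Fintype.card V - 6)
    (SimpleGraph.edgeFinset_subset_edgeFinset.2 le_top) (by
      have : G.edgeFinset.card = G.edgeSet.ncard := by
        rw [← SimpleGraph.coe_edgeFinset, Set.ncard_coe_finset]
      omega) h3
  set G' : SimpleGraph V := SimpleGraph.fromEdgeSet (F : Set (Sym2 V)) with hG'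
  have hGe : G'.edgeSet = F := by
    rw [hG', SimpleGraph.edgeSet_fromEdgeSet]
    ext e
    constructor
    · exact fun h => h.1
    · intro h
      refine ⟨h, ?_⟩
      have := hF2 (mem_coe.1 h)
      rw [SimpleGraph.mem_edgeFinset] at this
      exact fun hd => (⊤ : SimpleGraph V).not_isDiag_of_mem_edgeSet this hd
  have hGG' : G ≤ G' := by
    rw [← SimpleGraph.edgeSet_subset_edgeSet, hGe]
    intro e he
    exact mem_coe.2 (hF1 (SimpleGraph.mem_edgeFinset.2 he))
  have h4 : G'.edgeSet.ncard = 3 * Fintype.card V - 6 := by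
    rw [hGe, Set.ncard_coe_finset, hF3]
  have h5 := rigid_of_join hp (hJ.mono hGG') hA hB (by omega)
  have h7 := mo_le_add (G := G) (G' := G') p
  have h8 : (G'.edgeSet \ G.edgeSet).ncard = G'.edgeSet.ncard - G.edgeSet.ncard := by
    rw [Set.ncard_diff (SimpleGraph.edgeSet_subset_edgeSet.2 hGG') (Set.toFinite _)]
  omega

end Pool.Agent.TH349.Rig
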