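import Pool.Agent.TH349.Rig.Basic

/-!
# Complete bipartite graphs with inner edges
-/

set_option autoImplicit false


namespace Pool.Agent.TH349.Rig

open Finset Pool.Agent.H789R5 Pool.Agent.H283R2.DR

variable {V : Type}

open Classical in
/-- the set of the edges of `G` inside `U` -/
noncomputable def E2 (G : SimpleGraph V) (U : Finset V) : Finset (Sym2 V) :=
  U.sym2.filter fun e => e ∈ G.edgeSet

theorem mem_E2 {G : SimpleGraph V} {U : Finset V} {x y : V} :
    s(x, y) ∈ E2 G U ↔ x ∈ U ∧ y ∈ U ∧ G.Adj x y := by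
  classical
  unfold E2
  rw [mem_filter, mk_mem_sym2_iff, SimpleGraph.mem_edgeSet]
  tauto

theorem E2_mono {G H : SimpleGraph V} (h : G ≤ H) {U W : Finset V} (hU : U ⊆ W) :
    E2 G U ⊆ E2 H W := by
  intro e
  induction e using Sym2.ind with
  | _ x y =>
    rw [mem_E2, mem_E2]
    exact fun ⟨hx, hy, ha⟩ => ⟨hU hx, hU hy, h ha⟩

/-- the sets `A` and `B` are disjoint and completely joined -/
def Jn (G : SimpleGraph V) (A B : Finset V) : Prop :=
  Disjoint A B ∧ ∀ a ∈ A, ∀ b ∈ B, G.Adj a b

theorem Jn.symm {G : SimpleGraph V} {A B : Finset V} (h : Jn G A B) : Jn G B A :=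
  ⟨h.1.symm, fun b hb a ha => (h.2 a ha b hb).symm⟩

theorem Jn.mono {G H : SimpleGraph V} {A B : Finset V} (h : Jn G A B) (hGH : G ≤ H) : Jn H A B :=
  ⟨h.1, fun a ha b hb => hGH (h.2 a ha b hb)⟩

theorem Jn.subset {G : SimpleGraph V} {A B A' B' : Finset V} (h : Jn G A B) (hA : A' ⊆ A)
    (hB : B' ⊆ B) : Jn G A' B' :=
  ⟨Disjoint.mono hA hB h.1, fun a ha b hb => h.2 a (hA ha) b (hB hb)⟩

open Classical in
theorem E2_sup_edge {G : SimpleGraph V} {A : Finset V} {x y : V} (hx : x ∈ A) (hy : y ∈ A)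
    (hxy : x ≠ y) (hn : ¬ G.Adj x y) :
    (E2 G A).card + 1 ≤ (E2 (G ⊔ SimpleGraph.edge x y) A).card := by
  have h1 : insert s(x, y) (E2 G A) ⊆ E2 (G ⊔ SimpleGraph.edge x y) A := by
    intro e he
    rw [mem_insert] at he
    rcases he with rfl | he
    · rw [mem_E2]
      refine ⟨hx, hy, ?_⟩
      rw [SimpleGraph.sup_adj, SimpleGraph.edge_adj]
      exact Or.inr ⟨Or.inl ⟨rfl, rfl⟩, hxy⟩
    · exact E2_mono le_sup_left (Subset.refl _) he
  have h2 := card_le_card h1
  rwa [card_insert_of_notMem (by rw [mem_E2]; tauto)] at h2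

open Classical in
theorem E2_clique {G : SimpleGraph V} {A : Finset V} (hA : 3 ≤ A.card)
    (hc : ∀ x ∈ A, ∀ y ∈ A, x ≠ y → G.Adj x y) : 3 ≤ (E2 G A).card := by
  obtain ⟨x, y, z, hx, hy, hz, hxy, hxz, hyz⟩ := two_lt_card_iff.1 hA
  have h1 : ({s(x, y), s(x, z), s(y, z)} : Finset (Sym2 V)) ⊆ E2 G A := by
    intro e he
    simp only [mem_insert, mem_singleton] at he
    rcases he with rfl | rfl | rfl
    · exact mem_E2.2 ⟨hx, hy, hc _ hx _ hy hxy⟩
    · exact mem_E2.2 ⟨hx, hz, hc _ hx _ hz hxz⟩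
    · exact mem_E2.2 ⟨hy, hz, hc _ hy _ hz hyz⟩
  have h2 := card_le_card h1
  rw [card_insert_of_notMem, card_pair] at h2
  · exact h2
  · intro h
    rw [Sym2.eq_iff] at h
    rcases h with ⟨h, _⟩ | ⟨h, _⟩
    · exact hxy h
    · exact hxz h
  · rw [mem_insert, mem_singleton, Sym2.eq_iff, Sym2.eq_iff]
    rintro ((⟨_, h⟩ | ⟨h, _⟩) | (⟨h, _⟩ | ⟨h, _⟩))
    · exact hyz h
    · exact hxz h
    · exact hxy h
    · exact hxz h

open Classical in
/-- three inner edges on three vertices are a triangle -/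
theorem clique_of_card {G : SimpleGraph V} {A : Finset V} (hA : A.card = 3)
    (hE : 3 ≤ (E2 G A).card) : ∀ x ∈ A, ∀ y ∈ A, x ≠ y → G.Adj x y := by
  intro x hx y hy hxy
  by_contra hn
  have hz : ∃ z, A = {x, y, z} := by
    have h1 : ((A.erase x).erase y).card = 1 := by
      rw [card_erase_of_mem (mem_erase.2 ⟨hxy.symm, hy⟩), card_erase_of_mem hx, hA]
    obtain ⟨z, hz⟩ := card_eq_one.1 h1
    refine ⟨z, ?_⟩
    rw [← insert_erase hx, ← insert_erase (mem_erase.2 ⟨hxy.symm, hy⟩), hz]
  obtain ⟨z, rfl⟩ := hz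
  have h1 : E2 G {x, y, z} ⊆ {s(x, z), s(y, z)} := by
    intro e
    induction e using Sym2.ind with
    | _ a b =>
      rw [mem_E2]
      simp only [mem_insert, mem_singleton]
      rintro ⟨ha, hb, hab⟩
      have hne := hab.ne
      rcases ha with rfl | rfl | rfl <;> rcases hb with rfl | rfl | rfl <;>
        first
        | exact absurd rfl hne
        | exact absurd hab hn
        | exact absurd hab.symm hn
        | exact Or.inl rfl
        | exact Or.inr rfl
        | exact Or.inl Sym2.eq_swap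
        | exact Or.inr Sym2.eq_swap
  have h2 := card_le_card h1
  have h3 := (card_insert_le s(x, z) {s(y, z)})
  rw [card_singleton] at h3
  omega

variable [Fintype V]

open Classical in
/-- a side of three vertices which is a triangle -/
theorem ri_triside {p : V → Fin 3 → ℝ} (hp : MG p) {G : SimpleGraph V} {A B : Finset V}
    (hJ : Jn G A B) (hA : A.card = 3) (hc : ∀ x ∈ A, ∀ y ∈ A, x ≠ y → G.Adj x y) :
    ri p G (B ∪ A) := by
  obtain ⟨x, y, z, hxy, hxz, hyz, rfl⟩ := card_eq_three.1 hA
  have h1 := ri_tri hp (G := G) (x := z) (y := y) (z := x)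
    (hc _ (by simp) _ (by simp) hyz.symm) (hc _ (by simp) _ (by simp) hxz.symm)
    (hc _ (by simp) _ (by simp) hxy.symm)
  refine ri_addall hp (T := {x, y, z}) (Subset.refl _) hA.ge B ?_ h1
  intro b hb _ w hw
  exact (hJ.2 w hw b hb).symm

open Classical in
/-- the one-extension for joins: remove the vertex `v` of `B` and add an edge in `A` -/
theorem ri_red {p : V → Fin 3 → ℝ} (hp : MG p) {G : SimpleGraph V} {A B : Finset V}
    (hJ : Jn G A B) {v x y : V} (hv : v ∈ B) (hxy : x ≠ y)
    {N : Finset V} (hN : N ⊆ A ∪ B.erase v) (hN4 : N.card = 4) (hNa : ∀ z ∈ N, G.Adj v z)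
    (hxN : x ∈ N) (hyN : y ∈ N)
    (hr : ri p (G ⊔ SimpleGraph.edge x y) (A ∪ B.erase v)) : ri p G (A ∪ B) := by
  have hvU : v ∉ A ∪ B.erase v := by
    rw [mem_union]
    rintro (h | h)
    · exact disjoint_left.1 hJ.1 h hv
    · exact (mem_erase.1 h).1 rfl
  have h1 := ri_ext1 hp hvU hN hN4 hNa hxN hyN hxy hr
  have h2 : insert v (A ∪ B.erase v) = A ∪ B := by
    rw [← union_insert, insert_erase hv]
  rwa [h2] at h1

open Classical in
/-- a vertex of `B` which has a neighbour in `B` and after whose removal many edges remain -/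
def PV (G : SimpleGraph V) (B : Finset V) (k : ℕ) : Prop :=
  ∃ u ∈ B, ∃ v ∈ B, G.Adj u v ∧ k ≤ (E2 G (B.erase v)).card

open Classical in
theorem J3_step {p : V → Fin 3 → ℝ} (hp : MG p) {G : SimpleGraph V} {A B : Finset V}
    (hJ : Jn G A B) (hA : A.card = 3) {k : ℕ} (hk : 3 ≤ (E2 G A).card + (k + 1))
    (hPV : PV G B k)
    (ih : ∀ (G : SimpleGraph V) (B : Finset V), Jn G A B → 3 ≤ (E2 G A).card + k →
      k ≤ (E2 G B).card → ri p G (A ∪ B)) : ri p G (A ∪ B) := by
  by_cases hc : ∀ x ∈ A, ∀ y ∈ A, x ≠ y → G.Adj x y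
  · rw [union_comm]
    exact ri_triside hp hJ hA hc
  push Not at hc
  obtain ⟨x, hx, y, hy, hxy, hn⟩ := hc
  obtain ⟨u, hu, v, hv, huv, hkv⟩ := hPV
  have huA : u ∉ A := fun h => disjoint_left.1 hJ.1 h hu
  refine ri_red hp hJ hv hxy (N := insert u A) ?_ ?_ ?_ (mem_insert_of_mem hx)
    (mem_insert_of_mem hy) ?_
  · intro z hz
    rw [mem_insert] at hz
    rcases hz with rfl | hz
    · exact mem_union_right _ (mem_erase.2 ⟨huv.ne, hu⟩)
    · exact mem_union_left _ hz
  · rw [card_insert_of_notMem huA, hA]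
  · intro z hz
    rw [mem_insert] at hz
    rcases hz with rfl | hz
    · exact huv.symm
    · exact (hJ.2 z hz v hv).symm
  · apply ih
    · exact (hJ.subset (Subset.refl _) (erase_subset _ _)).mono le_sup_left
    · have := E2_sup_edge hx hy hxy hn
      omega
    · exact hkv.trans (card_le_card (E2_mono le_sup_left (Subset.refl _)))

theorem E2_erase {G : SimpleGraph V} [DecidableEq V] {B : Finset V} {e : Sym2 V} {v : V}
    (he : e ∈ E2 G B) (hv : v ∉ e) : e ∈ E2 G (B.erase v) := by
  induction e using Sym2.ind with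
  | _ a b =>
    rw [mem_E2] at *
    rw [Sym2.mem_iff, not_or] at hv
    exact ⟨mem_erase.2 ⟨fun h => hv.1 h.symm, he.1⟩, mem_erase.2 ⟨fun h => hv.2 h.symm, he.2.1⟩,
      he.2.2⟩

open Classical in
theorem PV_of {G : SimpleGraph V} {B : Finset V} {e : Sym2 V} {v : V} (he : e ∈ E2 G B)
    (hv : v ∈ e) {F : Finset (Sym2 V)} (hF : F ⊆ E2 G B) (hvF : ∀ f ∈ F, v ∉ f) :
    PV G B F.card := by
  induction e using Sym2.ind with
  | _ a b =>
    have hs : F ⊆ E2 G (B.erase v) := fun f hf => E2_erase (hF hf) (hvF f hf)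
    rw [mem_E2] at he
    rw [Sym2.mem_iff] at hv
    rcases hv with rfl | rfl
    · exact ⟨b, he.2.1, v, he.1, he.2.2.symm, card_le_card hs⟩
    · exact ⟨a, he.1, v, he.2.1, he.2.2, card_le_card hs⟩

open Classical in
theorem PV1 {G : SimpleGraph V} {B : Finset V} (h : 1 ≤ (E2 G B).card) : PV G B 0 := by
  obtain ⟨e, he⟩ := card_pos.1 h
  induction e using Sym2.ind with
  | _ a b => exact PV_of (F := ∅) he (Sym2.mem_mk_left a b) (by simp) (by simp)

open Classical in
theorem PV2 {G : SimpleGraph V} {B : Finset V} (h : 2 ≤ (E2 G B).card) : PV G B 1 := by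
  obtain ⟨e, he, f, hf, hef⟩ := one_lt_card.1 h
  induction e using Sym2.ind with
  | _ a b =>
    by_cases h1 : a ∈ f
    · by_cases h2 : b ∈ f
      · exfalso
        have hab : a ≠ b := (mem_E2.1 he).2.2.ne
        exact hef ((Sym2.mem_and_mem_iff hab).1 ⟨h1, h2⟩).symm
      · exact PV_of (F := {f}) he (Sym2.mem_mk_right a b) (by simpa using hf) (by simpa using h2)
    · exact PV_of (F := {f}) he (Sym2.mem_mk_left a b) (by simpa using hf) (by simpa using h1)

open Classical in
theorem PV3 {G : SimpleGraph V} {B : Finset V} (h : 3 ≤ (E2 G B).card) :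
    PV G B 2 ∨ ∃ T ⊆ B, T.card = 3 ∧ ∀ x ∈ T, ∀ y ∈ T, x ≠ y → G.Adj x y := by
  obtain ⟨e, f, g, he, hf, hg, hef, heg, hfg⟩ := two_lt_card_iff.1 h
  induction e using Sym2.ind with
  | _ a b =>
    have hab : a ≠ b := (mem_E2.1 he).2.2.ne
    have key : ∀ v ∈ s(a, b), v ∉ f → v ∉ g → PV G B 2 := by
      intro v hv h1 h2
      have := PV_of (F := {f, g}) he hv (by
        intro w hw
        simp only [mem_insert, mem_singleton] at hw
        rcases hw with rfl | rfl
        · exact hf
        · exact hg) (by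
        intro w hw
        simp only [mem_insert, mem_singleton] at hw
        rcases hw with rfl | rfl
        · exact h1
        · exact h2)
      rwa [card_pair hfg] at this
    -- the main case
    have main : ∀ (a b : V) (f g : Sym2 V), s(a, b) ∈ E2 G B → f ∈ E2 G B → g ∈ E2 G B →
        s(a, b) ≠ f → s(a, b) ≠ g → f ≠ g → a ∈ f → b ∈ g →
        PV G B 2 ∨ ∃ T ⊆ B, T.card = 3 ∧ ∀ x ∈ T, ∀ y ∈ T, x ≠ y → G.Adj x y := by
      clear key hab he hf hg hef heg hfg h
      intro a b f g he hf hg hef heg hfg ha hb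
      obtain ⟨c, rfl⟩ := ha
      obtain ⟨d, rfl⟩ := hb
      have hab : a ≠ b := (mem_E2.1 he).2.2.ne
      have hac : a ≠ c := (mem_E2.1 hf).2.2.ne
      have hbd : b ≠ d := (mem_E2.1 hg).2.2.ne
      have hbc : b ≠ c := by
        rintro rfl
        exact hef rfl
      have had : a ≠ d := by
        rintro rfl
        exact heg Sym2.eq_swap
      by_cases hcd : c = d
      · subst hcd
        right
        refine ⟨{a, b, c}, ?_, ?_, ?_⟩
        · intro w hw
          simp only [mem_insert, mem_singleton] at hw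
          rcases hw with rfl | rfl | rfl
          · exact (mem_E2.1 he).1
          · exact (mem_E2.1 he).2.1
          · exact (mem_E2.1 hf).2.1
        · rw [card_eq_three]
          exact ⟨a, b, c, hab, hac, hbc, rfl⟩
        · have e1 := (mem_E2.1 he).2.2
          have e2 := (mem_E2.1 hf).2.2
          have e3 := (mem_E2.1 hg).2.2
          intro x hx y hy hxy
          simp only [mem_insert, mem_singleton] at hx hy
          rcases hx with rfl | rfl | rfl <;> rcases hy with rfl | rfl | rfl <;>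
            first
            | exact absurd rfl hxy
            | assumption
            | exact e1.symm
            | exact e2.symm
            | exact e3.symm
      · left
        have h1 : c ∉ s(a, b) := by
          rw [Sym2.mem_iff]
          rintro (h | h)
          · exact hac h.symm
          · exact hbc h.symm
        have h2 : c ∉ s(b, d) := by
          rw [Sym2.mem_iff]
          rintro (h | h)
          · exact hbc h.symm
          · exact hcd h
        have := PV_of (F := {s(a, b), s(b, d)}) hf (Sym2.mem_mk_right a c) (by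
          intro w hw
          simp only [mem_insert, mem_singleton] at hw
          rcases hw with rfl | rfl
          · exact he
          · exact hg) (by
          intro w hw
          simp only [mem_insert, mem_singleton] at hw
          rcases hw with rfl | rfl
          · exact h1
          · exact h2)
        rwa [card_pair heg] at this
    by_cases ha : a ∈ f ∨ a ∈ g
    · by_cases hb : b ∈ f ∨ b ∈ g
      · rcases ha with ha | ha <;> rcases hb with hb | hb
        · exact absurd ((Sym2.mem_and_mem_iff hab).1 ⟨ha, hb⟩).symm hef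
        · exact main a b f g he hf hg hef heg hfg ha hb
        · exact main a b g f he hg hf heg hef hfg.symm ha hb
        · exact absurd ((Sym2.mem_and_mem_iff hab).1 ⟨ha, hb⟩).symm heg
      · rw [not_or] at hb
        exact Or.inl (key b (Sym2.mem_mk_right a b) hb.1 hb.2)
    · rw [not_or] at ha
      exact Or.inl (key a (Sym2.mem_mk_left a b) ha.1 ha.2)

open Classical in
/-- a side of three vertices and three inner edges -/
theorem J3 {p : V → Fin 3 → ℝ} (hp : MG p) {G : SimpleGraph V} {A B : Finset V}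
    (hJ : Jn G A B) (hA : A.card = 3) (hE : 3 ≤ (E2 G A).card + (E2 G B).card) :
    ri p G (A ∪ B) := by
  have C0 : ∀ (G : SimpleGraph V) (B : Finset V), Jn G A B → 3 ≤ (E2 G A).card + 0 →
      0 ≤ (E2 G B).card → ri p G (A ∪ B) := by
    intro G B hJ h _
    rw [union_comm]
    exact ri_triside hp hJ hA (clique_of_card hA h)
  have C1 : ∀ (G : SimpleGraph V) (B : Finset V), Jn G A B → 3 ≤ (E2 G A).card + 1 →
      1 ≤ (E2 G B).card → ri p G (A ∪ B) :=
    fun G B hJ h h' => J3_step hp hJ hA h (PV1 h') C0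
  have C2 : ∀ (G : SimpleGraph V) (B : Finset V), Jn G A B → 3 ≤ (E2 G A).card + 2 →
      2 ≤ (E2 G B).card → ri p G (A ∪ B) :=
    fun G B hJ h h' => J3_step hp hJ hA h (PV2 h') C1
  by_cases h0 : 3 ≤ (E2 G A).card
  · exact C0 G B hJ h0 (Nat.zero_le _)
  by_cases h1 : 2 ≤ (E2 G A).card
  · exact C1 G B hJ (by omega) (by omega)
  by_cases h2 : 1 ≤ (E2 G A).card
  · exact C2 G B hJ (by omega) (by omega)
  rcases PV3 (G := G) (B := B) (by omega) with h | ⟨T, hTB, hT3, hT⟩
  · exact J3_step hp hJ hA (k := 2) (by omega) h C2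
  · have h3 : ri p G (A ∪ T) := ri_triside hp (hJ.symm.subset hTB (Subset.refl _)) hT3 hT
    have h4 := ri_addall hp (U := A ∪ T) (T := A) subset_union_left hA.ge B
      (fun b hb _ z hz => (hJ.2 z hz b hb).symm) h3
    have h5 : B ∪ (A ∪ T) = A ∪ B := by
      ext w
      simp only [mem_union]
      constructor
      · rintro (h | h | h)
        · exact Or.inr h
        · exact Or.inl h
        · exact Or.inr (hTB h)
      · tauto
    rwa [h5] at h4

open Classical in
/-- the reduction step when the other side has at least four vertices -/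
theorem RED {p : V → Fin 3 → ℝ} (hp : MG p) {G : SimpleGraph V} {A B : Finset V}
    (hJ : Jn G A B) (hA : 4 ≤ A.card) {v : V} (hv : v ∈ B) {k : ℕ} (hk : k ≤ 2)
    (hkA : k ≤ (E2 G A).card)
    (ih : ∀ G' : SimpleGraph V, G ≤ G' → k + 1 ≤ (E2 G' A).card → ri p G' (A ∪ B.erase v)) :
    ri p G (A ∪ B) := by
  by_cases hc : ∀ x ∈ A, ∀ y ∈ A, x ≠ y → G.Adj x y
  · have h1 := ih G le_rfl (by
      have := E2_clique (G := G) (by omega) hc
      omega)
    have h2 := ri_addall hp (T := A) subset_union_left (by omega) {v} (by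
      intro b hb _ z hz
      rw [mem_singleton] at hb
      subst hb
      exact (hJ.2 z hz b hv).symm) h1
    have h3 : ({v} : Finset V) ∪ (A ∪ B.erase v) = A ∪ B := by
      rw [← insert_eq, ← union_insert, insert_erase hv]
    rwa [h3] at h2
  push Not at hc
  obtain ⟨x, hx, y, hy, hxy, hn⟩ := hc
  obtain ⟨N, hN1, hN2, hN3⟩ := exists_subsuperset_card_eq (s := {x, y}) (t := A) (n := 4) (by
    intro w hw
    simp only [mem_insert, mem_singleton] at hw
    rcases hw with rfl | rfl
    · exact hx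
    · exact hy) (by rw [card_pair hxy]; norm_num) hA
  refine ri_red hp hJ hv hxy (N := N) (hN2.trans subset_union_left) hN3 ?_
    (hN1 (by simp)) (hN1 (by simp)) ?_
  · intro z hz
    exact (hJ.2 z (hN2 hz) v hv).symm
  · apply ih _ le_sup_left
    have := E2_sup_edge hx hy hxy hn
    omega

open Classical in
theorem exists_erase {G : SimpleGraph V} {B : Finset V} (hB : 3 ≤ B.card)
    (h : 1 ≤ (E2 G B).card) : ∃ v ∈ B, 1 ≤ (E2 G (B.erase v)).card := by
  obtain ⟨e, he⟩ := card_pos.1 h
  induction e using Sym2.ind with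
  | _ a b =>
    have h1 : ∃ v ∈ B, v ∉ ({a, b} : Finset V) := by
      by_contra hcon
      push Not at hcon
      have := card_le_card (fun v hv => hcon v hv : B ⊆ {a, b})
      have h2 : ({a, b} : Finset V).card ≤ 2 := card_le_two
      omega
    obtain ⟨v, hv, hvab⟩ := h1
    refine ⟨v, hv, card_pos.2 ⟨s(a, b), E2_erase he ?_⟩⟩
    rw [Sym2.mem_iff]
    simpa using hvab

open Classical in
theorem J44 {p : V → Fin 3 → ℝ} (hp : MG p) {G : SimpleGraph V} {A B : Finset V}
    (hJ : Jn G A B) (hA : A.card = 4) (hB : B.card = 4)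
    (hE : 2 ≤ (E2 G A).card + (E2 G B).card) : ri p G (A ∪ B) := by
  have both : ∀ A B : Finset V, Jn G A B → A.card = 4 → B.card = 4 → 2 ≤ (E2 G A).card →
      ri p G (A ∪ B) := by
    intro A B hJ hA hB h
    obtain ⟨v, hv⟩ := card_pos.1 (by omega : 0 < B.card)
    refine RED hp hJ hA.ge hv (k := 2) le_rfl h ?_
    intro G' hG' h'
    rw [union_comm]
    refine J3 hp ((hJ.subset (Subset.refl _) (erase_subset _ _)).mono hG').symm ?_ (by omega)
    rw [card_erase_of_mem hv, hB]
  by_cases h1 : 2 ≤ (E2 G A).card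
  · exact both A B hJ hA hB h1
  by_cases h2 : 2 ≤ (E2 G B).card
  · rw [union_comm]
    exact both B A hJ.symm hB hA h2
  obtain ⟨v, hv, hve⟩ := exists_erase (G := G) (B := A) (by omega) (by omega)
  rw [union_comm]
  refine RED hp hJ.symm hB.ge hv (k := 1) (by norm_num) (by omega) ?_
  intro G' hG' h'
  rw [union_comm]
  refine J3 hp ((hJ.subset (erase_subset _ _) (Subset.refl _)).mono hG') ?_ ?_
  · rw [card_erase_of_mem hv, hA]
  · have := card_le_card (E2_mono hG' (Subset.refl (A.erase v)))
    omega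

open Classical in
theorem J45 {p : V → Fin 3 → ℝ} (hp : MG p) {G : SimpleGraph V} {A B : Finset V}
    (hJ : Jn G A B) (hA : A.card = 4) (hB : B.card = 5)
    (hE : 1 ≤ (E2 G A).card + (E2 G B).card) : ri p G (A ∪ B) := by
  by_cases h1 : 1 ≤ (E2 G A).card
  · obtain ⟨v, hv⟩ := card_pos.1 (by omega : 0 < B.card)
    refine RED hp hJ hA.ge hv (k := 1) (by norm_num) h1 ?_
    intro G' hG' h'
    refine J44 hp ((hJ.subset (Subset.refl _) (erase_subset _ _)).mono hG') hA ?_ (by omega)
    rw [card_erase_of_mem hv, hB]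
  · obtain ⟨v, hv, hve⟩ := exists_erase (G := G) (B := B) (by omega) (by omega)
    refine RED hp hJ hA.ge hv (k := 0) (by norm_num) (by omega) ?_
    intro G' hG' h'
    refine J44 hp ((hJ.subset (Subset.refl _) (erase_subset _ _)).mono hG') hA ?_ ?_
    · rw [card_erase_of_mem hv, hB]
    · have := card_le_card (E2_mono hG' (Subset.refl (B.erase v)))
      omega

open Classical in
theorem J46 {p : V → Fin 3 → ℝ} (hp : MG p) {G : SimpleGraph V} {A B : Finset V}
    (hJ : Jn G A B) (hA : A.card = 4) (hB : B.card = 6) : ri p G (A ∪ B) := by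
  obtain ⟨v, hv⟩ := card_pos.1 (by omega : 0 < B.card)
  refine RED hp hJ hA.ge hv (k := 0) (by norm_num) (by omega) ?_
  intro G' hG' h'
  refine J45 hp ((hJ.subset (Subset.refl _) (erase_subset _ _)).mono hG') hA ?_ (by omega)
  rw [card_erase_of_mem hv, hB]

open Classical in
theorem J55 {p : V → Fin 3 → ℝ} (hp : MG p) {G : SimpleGraph V} {A B : Finset V}
    (hJ : Jn G A B) (hA : A.card = 5) (hB : B.card = 5) : ri p G (A ∪ B) := by
  obtain ⟨v, hv⟩ := card_pos.1 (by omega : 0 < B.card)
  refine RED hp hJ (by omega) hv (k := 0) (by norm_num) (by omega) ?_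
  intro G' hG' h'
  rw [union_comm]
  refine J45 hp ((hJ.subset (Subset.refl _) (erase_subset _ _)).mono hG').symm ?_ hA (by omega)
  rw [card_erase_of_mem hv, hB]

open Classical in
/-- enlarging both sides of a rigid join -/
theorem enlarge {p : V → Fin 3 → ℝ} (hp : MG p) {G : SimpleGraph V} {A B A' B' : Finset V}
    (hJ : Jn G A B) (hA : A' ⊆ A) (hB : B' ⊆ B) (hA3 : 3 ≤ A'.card) (hB3 : 3 ≤ B'.card)
    (h : ri p G (A' ∪ B')) : ri p G (A ∪ B) := by
  have h1 := ri_addall hp (U := A' ∪ B') (T := B') subset_union_right hB3 A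
    (fun a ha _ z hz => hJ.2 a ha z (hB hz)) h
  have h2 := ri_addall hp (U := A ∪ (A' ∪ B')) (T := A') (hA.trans subset_union_left) hA3 B
    (fun b hb _ z hz => (hJ.2 z (hA hz) b hb).symm) h1
  have h3 : B ∪ (A ∪ (A' ∪ B')) = A ∪ B := by
    ext w
    simp only [mem_union]
    constructor
    · rintro (h | h | h | h)
      · exact Or.inr h
      · exact Or.inl h
      · exact Or.inl (hA h)
      · exact Or.inr (hB h)
    · tauto
  rwa [h3] at h2

open Classical in
theorem join_rigid_aux {p : V → Fin 3 → ℝ} (hp : MG p) {G : SimpleGraph V} {A B : Finset V}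
    (hJ : Jn G A B) (hA : 3 ≤ A.card) (hAB : A.card ≤ B.card)
    (hE : 3 * (A.card + B.card) ≤ A.card * B.card + (E2 G A).card + (E2 G B).card + 6) :
    ri p G (A ∪ B) := by
  by_cases h3 : A.card = 3
  · refine J3 hp hJ h3 ?_
    rw [h3] at hE
    omega
  by_cases h4 : A.card = 4
  · by_cases h4' : B.card = 4
    · refine J44 hp hJ h4 h4' ?_
      rw [h4, h4'] at hE
      omega
    by_cases h5' : B.card = 5
    · refine J45 hp hJ h4 h5' ?_
      rw [h4, h5'] at hE
      omega
    obtain ⟨B', hB', hB6⟩ := exists_subset_card_eq (s := B) (n := 6) (by omega)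
    exact enlarge hp hJ (Subset.refl _) hB' hA (by omega)
      (J46 hp (hJ.subset (Subset.refl _) hB') h4 hB6)
  obtain ⟨A', hA', hA5⟩ := exists_subset_card_eq (s := A) (n := 5) (by omega)
  obtain ⟨B', hB', hB5⟩ := exists_subset_card_eq (s := B) (n := 5) (by omega)
  exact enlarge hp hJ hA' hB' (by omega) (by omega) (J55 hp (hJ.subset hA' hB') hA5 hB5)

open Classical in
/-- joins with two sides of at least three vertices each -/
theorem join_rigid {p : V → Fin 3 → ℝ} (hp : MG p) {G : SimpleGraph V} {A B : Finset V}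
    (hJ : Jn G A B) (hA : 3 ≤ A.card) (hB : 3 ≤ B.card)
    (hE : 3 * (A.card + B.card) ≤ A.card * B.card + (E2 G A).card + (E2 G B).card + 6) :
    ri p G (A ∪ B) := by
  rcases le_total A.card B.card with h | h
  · exact join_rigid_aux hp hJ hA h hE
  · rw [union_comm]
    refine join_rigid_aux hp hJ.symm hB h ?_
    have := mul_comm A.card B.card
    omega

end Pool.Agent.TH349.Rig
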