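import Pool.Agent.TH349.Rig.Count

/-!
# Joins with a side of two vertices; rigid graphs are three-connected
-/

set_option autoImplicit false


namespace Pool.Agent.TH349.Rig

open Finset Pool.Agent.H789R5 Pool.Agent.H283R2.DR Matrix

variable {V : Type} [Fintype V]

open Classical in
/-- growing along a connected side -/
theorem grow {p : V → Fin 3 → ℝ} (hp : MG p) {G : SimpleGraph V} {x y : V} {B U : Finset V}
    (hxy : x ≠ y) (hJx : ∀ b ∈ B, G.Adj x b) (hJy : ∀ b ∈ B, G.Adj y b)
    (hB : (G.induce (B : Set V)).Preconnected) {b0 : V} (hb0 : b0 ∈ B) (hb0U : b0 ∈ U)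
    (hx : x ∈ U) (hy : y ∈ U) (hr : ri p G U) : ri p G (U ∪ B) := by
  -- a maximal rigid set between `U` and `U ∪ B`
  have hfin : ((univ : Finset (Finset V)).filter fun W => U ⊆ W ∧ W ⊆ U ∪ B ∧ ri p G W).Nonempty :=
    ⟨U, by simp [hr]⟩
  obtain ⟨W, hW, hmax⟩ := exists_max_image _ (fun W : Finset V => W.card) hfin
  rw [mem_filter] at hW
  obtain ⟨-, hUW, hWB, hrW⟩ := hW
  by_cases hWeq : U ∪ B ⊆ W
  · rwa [Subset.antisymm hWB hWeq] at hrW
  exfalso
  obtain ⟨b, hb, hbW⟩ := not_subset.1 hWeq
  have hbB : b ∈ B := by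
    rcases mem_union.1 hb with h | h
    · exact absurd (hUW h) hbW
    · exact h
  obtain ⟨q⟩ := hB ⟨b0, hb0⟩ ⟨b, hbB⟩
  obtain ⟨d, -, hd1, hd2⟩ := q.exists_boundary_dart {z | (z : V) ∈ W} (hUW hb0U) hbW
  obtain ⟨s, t, hsW, htW, hsB, htB, hst⟩ : ∃ s t : V, s ∈ W ∧ t ∉ W ∧ s ∈ B ∧ t ∈ B ∧
      G.Adj s t := ⟨d.fst.1, d.snd.1, hd1, hd2, d.fst.2, d.snd.2, d.adj⟩
  have hxs : x ≠ s := (hJx s hsB).ne
  have hys : y ≠ s := (hJy s hsB).ne
  have h1 : ri p G (insert t W) := by
    refine ri_ext0 hp htW (T := {x, y, s}) ?_ ?_ ?_ hrW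
    · intro w hw
      simp only [mem_insert, mem_singleton] at hw
      rcases hw with rfl | rfl | rfl
      · exact hUW hx
      · exact hUW hy
      · exact hsW
    · exact card_eq_three.2 ⟨x, y, s, hxy, hxs, hys, rfl⟩
    · intro w hw
      simp only [mem_insert, mem_singleton] at hw
      rcases hw with rfl | rfl | rfl
      · exact (hJx t htB).symm
      · exact (hJy t htB).symm
      · exact hst.symm
  have h2 := hmax (insert t W) (by
    rw [mem_filter]
    exact ⟨mem_univ _, hUW.trans (subset_insert _ _),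
      insert_subset (mem_union_right _ htB) hWB, h1⟩)
  rw [card_insert_of_notMem htW] at h2
  omega

open Classical in
/-- the double pyramid over a cycle -/
theorem bipyramid {p : V → Fin 3 → ℝ} (hp : MG p) {x y : V} (hxy : x ≠ y) (k : ℕ) (hk : 2 ≤ k) :
    ∀ (G : SimpleGraph V) (c : ℕ → V), (∀ i ≤ k, G.Adj x (c i)) → (∀ i ≤ k, G.Adj y (c i)) →
      (∀ i ≤ k, ∀ j ≤ k, c i = c j → i = j) → (∀ i < k, G.Adj (c i) (c (i + 1))) →
      G.Adj (c k) (c 0) → ri p G (insert x (insert y ((range (k + 1)).image c))) := by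
  induction k, hk using Nat.le_induction with
  | base =>
    intro G c hx hy hinj hc hc0
    have e1 := ri_tri hp (G := G) (x := c 0) (y := c 1) (z := c 2) (hc 0 (by norm_num))
      hc0.symm (hc 1 (by norm_num))
    have h3 : (range (2 + 1)).image c = {c 2, c 1, c 0} := by
      ext w
      simp only [mem_image, mem_range, mem_insert, mem_singleton]
      constructor
      · rintro ⟨i, hi, rfl⟩
        interval_cases i <;> simp
      · rintro (rfl | rfl | rfl)
        · exact ⟨2, by norm_num, rfl⟩
        · exact ⟨1, by norm_num, rfl⟩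
        · exact ⟨0, by norm_num, rfl⟩
    have hcard : ((range (2 + 1)).image c).card = 3 := by
      rw [card_image_of_injOn, card_range]
      intro i hi j hj hij
      rw [mem_coe, mem_range] at hi hj
      exact hinj i (by omega) j (by omega) hij
    have hmem : ∀ (z : V), (∀ i ≤ 2, G.Adj z (c i)) → ∀ w ∈ (range (2 + 1)).image c, G.Adj z w := by
      intro z hz w hw
      rw [mem_image] at hw
      obtain ⟨i, hi, rfl⟩ := hw
      rw [mem_range] at hi
      exact hz i (by omega)
    rw [← h3] at e1
    have hyn : y ∉ (range (2 + 1)).image c := fun h => (hmem y hy y h).ne rfl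
    have hxn : x ∉ insert y ((range (2 + 1)).image c) := by
      rw [mem_insert]
      rintro (h | h)
      · exact hxy h
      · exact (hmem x hx x h).ne rfl
    have e2 := ri_ext0 hp hyn (Subset.refl _) hcard (hmem y hy) e1
    exact ri_ext0 hp hxn (subset_insert _ _) hcard (hmem x hx) e2
  | succ k hk ih =>
    intro G c hx hy hinj hc hc0
    have hne : c k ≠ c 0 := fun h => by
      have := hinj k (by omega) 0 (by omega) h
      omega
    have hle : G ≤ G ⊔ SimpleGraph.edge (c k) (c 0) := le_sup_left
    have e1 := ih (G ⊔ SimpleGraph.edge (c k) (c 0)) c (fun i hi => hle (hx i (by omega)))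
      (fun i hi => hle (hy i (by omega))) (fun i hi j hj => hinj i (by omega) j (by omega))
      (fun i hi => hle (hc i (by omega))) (by
        rw [SimpleGraph.sup_adj, SimpleGraph.edge_adj]
        exact Or.inr ⟨Or.inl ⟨rfl, rfl⟩, hne⟩)
    have hx1 := hx (k + 1) le_rfl
    have hy1 := hy (k + 1) le_rfl
    have hv : c (k + 1) ∉ insert x (insert y ((range (k + 1)).image c)) := by
      rw [mem_insert, mem_insert, mem_image]
      rintro (h | h | ⟨i, hi, h⟩)
      · exact hx1.ne h.symm
      · exact hy1.ne h.symm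
      · rw [mem_range] at hi
        have := hinj i (by omega) (k + 1) le_rfl h
        omega
    have hck : c k ∈ (range (k + 1)).image c := mem_image.2 ⟨k, by simp, rfl⟩
    have hc0m : c 0 ∈ (range (k + 1)).image c := mem_image.2 ⟨0, by simp, rfl⟩
    have e2 := ri_ext1 hp hv (N := {x, y, c k, c 0}) ?_ ?_ ?_ (x := c k) (y := c 0) (by simp)
      (by simp) hne e1
    · have h3 : insert (c (k + 1)) (insert x (insert y ((range (k + 1)).image c))) =
          insert x (insert y ((range (k + 1 + 1)).image c)) := by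
        rw [range_add_one (n := k + 1), image_insert]
        ext w
        simp only [mem_insert]
        tauto
      rwa [h3] at e2
    · intro w hw
      simp only [mem_insert, mem_singleton] at hw
      rcases hw with rfl | rfl | rfl | rfl
      · simp
      · simp
      · exact mem_insert_of_mem (mem_insert_of_mem hck)
      · exact mem_insert_of_mem (mem_insert_of_mem hc0m)
    · rw [card_insert_of_notMem, card_insert_of_notMem, card_pair hne]
      · simp only [mem_insert, mem_singleton, not_or]
        exact ⟨(hy k (by omega)).ne, (hy 0 (by omega)).ne⟩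
      · simp only [mem_insert, mem_singleton, not_or]
        exact ⟨hxy, (hx k (by omega)).ne, (hx 0 (by omega)).ne⟩
    · intro w hw
      simp only [mem_insert, mem_singleton] at hw
      rcases hw with rfl | rfl | rfl | rfl
      · exact hx1.symm
      · exact hy1.symm
      · exact (hc k (by omega)).symm
      · exact hc0

open Classical in
/-- the edges of the induced graph -/
theorem E2_le_induce (G : SimpleGraph V) (B : Finset V) :
    (E2 G B).card ≤ Nat.card (G.induce (B : Set V)).edgeSet := by
  have h1 : (E2 G B : Set (Sym2 V)) ⊆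
      (Sym2.map (fun z : ((B : Finset V) : Set V) => (z : V))) ''
        (G.induce ((B : Finset V) : Set V)).edgeSet := by
    intro e he
    rw [mem_coe] at he
    induction e using Sym2.ind with
    | _ a b =>
      rw [mem_E2] at he
      refine ⟨s(⟨a, he.1⟩, ⟨b, he.2.1⟩), ?_, rfl⟩
      rw [SimpleGraph.mem_edgeSet]
      exact he.2.2
  have h2 := Set.ncard_le_ncard h1 (Set.toFinite _)
  rw [Set.ncard_coe_finset] at h2
  exact h2.trans (Set.ncard_image_le (Set.toFinite _))

open Classical in
/-- joins of two vertices with a connected graph -/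
theorem rigid_two {p : V → Fin 3 → ℝ} (hp : MG p) {G : SimpleGraph V} {A : Finset V}
    (hJ : Jn G A Aᶜ) (hA : A.card = 2) (hB : 2 ≤ (Aᶜ).card)
    (hcon : (G.induce ((Aᶜ : Finset V) : Set V)).Connected)
    (hE : 3 * Fintype.card V ≤ G.edgeSet.ncard + 6) : mo G p ≤ 6 := by
  have h2 := card_add_card_compl A
  have h3 := edges_join hJ
  obtain ⟨x, y, hxy, rfl⟩ := card_eq_two.1 hA
  set B : Finset V := ({x, y} : Finset V)ᶜ with hBdef
  have hJx : ∀ b ∈ B, G.Adj x b := fun b hb => hJ.2 x (by simp) b hb
  have hJy : ∀ b ∈ B, G.Adj y b := fun b hb => hJ.2 y (by simp) b hb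
  have huniv : ∀ U : Finset V, x ∈ U → y ∈ U → U ∪ B = univ := by
    intro U hx hy
    rw [eq_univ_iff_forall]
    intro w
    rw [mem_union, hBdef, mem_compl, mem_insert, mem_singleton]
    by_cases h : w = x ∨ w = y
    · rcases h with rfl | rfl
      · exact Or.inl hx
      · exact Or.inl hy
    · exact Or.inr h
  rw [← ri_univ]
  by_cases hadj : G.Adj x y
  · obtain ⟨b, hb⟩ := card_pos.1 (by omega : 0 < B.card)
    have h3' := ri_tri hp hadj (hJx b hb) (hJy b hb)
    have h4 := grow hp hxy hJx hJy hcon.preconnected hb (by simp) (by simp) (by simp) h3'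
    rwa [huniv _ (by simp) (by simp)] at h4
  · -- there is a cycle in `B`
    have h4 : (E2 G ({x, y} : Finset V)).card = 0 := by
      rw [card_eq_zero, eq_empty_iff_forall_notMem]
      intro e he
      induction e using Sym2.ind with
      | _ a b =>
        rw [mem_E2] at he
        simp only [mem_insert, mem_singleton] at he
        obtain ⟨ha, hb, hab⟩ := he
        rcases ha with rfl | rfl <;> rcases hb with rfl | rfl
        · exact hab.ne rfl
        · exact hadj hab
        · exact hadj hab.symm
        · exact hab.ne rfl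
    rw [h4, hA] at h3
    have h5 : B.card ≤ (E2 G B).card := by omega
    have h6 := E2_le_induce G B
    set H := G.induce ((B : Finset V) : Set V) with hH
    have hcardB : Nat.card ((B : Finset V) : Set V) = B.card := by
      rw [Nat.card_eq_fintype_card]
      simp
    have h7 : ¬ H.IsAcyclic := by
      intro hac
      have h8 := (SimpleGraph.isTree_iff_connected_and_card (G := H)).1 ⟨hcon, hac⟩
      rw [hcardB] at h8
      omega
    rw [SimpleGraph.isAcyclic_iff_forall_adj_isBridge] at h7
    push Not at h7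
    obtain ⟨u, v, huv, hbr⟩ := h7
    rw [SimpleGraph.isBridge_iff, not_not] at hbr
    obtain ⟨q, hq⟩ := hbr.exists_isPath
    have hlen : 2 ≤ q.length := by
      by_contra hcon'
      push Not at hcon'
      have h0 : q.length ≠ 0 := by
        intro h0
        exact huv.ne (SimpleGraph.Walk.eq_of_length_eq_zero h0)
      have h1 : q.length = 1 := by omega
      have h9 := SimpleGraph.Walk.adj_of_length_eq_one h1
      rw [SimpleGraph.deleteEdges_adj] at h9
      exact h9.2 rfl
    have h8 := bipyramid hp hxy q.length hlen G (fun i => (q.getVert i : V))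
      (fun i _ => hJx _ (q.getVert i).2) (fun i _ => hJy _ (q.getVert i).2)
      (fun i hi j hj hij => hq.getVert_injOn hi hj (Subtype.ext hij))
      (fun i hi => by
        have := q.adj_getVert_succ hi
        rw [SimpleGraph.deleteEdges_adj] at this
        exact this.1) (by
        show G.Adj (q.getVert q.length : V) (q.getVert 0 : V)
        rw [SimpleGraph.Walk.getVert_length, SimpleGraph.Walk.getVert_zero]
        exact huv.symm)
    have h9 := grow hp hxy hJx hJy hcon.preconnected (b0 := u) u.2 (by
      rw [mem_insert, mem_insert, mem_image]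
      right; right
      exact ⟨0, by simp, by rw [SimpleGraph.Walk.getVert_zero]⟩) (by simp) (by simp) h8
    rwa [huniv _ (by simp) (by simp)] at h9

/-- `G` is three-connected: it has at least four vertices, and it remains connected after the
removal of any set of at most two vertices. -/
def ThreeConnected (G : SimpleGraph V) : Prop :=
  4 ≤ Fintype.card V ∧ ∀ S : Finset V, S.card ≤ 2 → (G.induce ((S : Set V)ᶜ)).Connected

/-- the rotation with axis `w` -/
def rot (w : Fin 3 → ℝ) : Matrix (Fin 3) (Fin 3) ℝ :=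
  !![0, -w 2, w 1; w 2, 0, -w 0; -w 1, w 0, 0]

theorem rot_skew (w : Fin 3 → ℝ) : (rot w)ᵀ = - rot w := by
  ext i j
  fin_cases i <;> fin_cases j <;> simp [rot]

theorem rot_self (w : Fin 3 → ℝ) : rot w *ᵥ w = 0 := by
  ext i
  fin_cases i <;> simp [rot, Matrix.mulVec, dotProduct, Fin.sum_univ_three] <;> ring

theorem rot_eq_zero {w : Fin 3 → ℝ} (h : rot w = 0) : w = 0 := by
  ext i
  have h0 := congrFun (congrFun h 2) 1
  have h1 := congrFun (congrFun h 0) 2
  have h2 := congrFun (congrFun h 1) 0
  simp [rot] at h0 h1 h2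
  fin_cases i
  · simpa using h0
  · simpa using h1
  · simpa using h2

open Classical in
theorem separation {G : SimpleGraph V} (hG : GenRigid 3 G)
    {x y : V} (hxy : x ≠ y) :
    (G.induce ((({x, y} : Finset V) : Set V)ᶜ)).Preconnected := by
  obtain ⟨p, hp⟩ := exists_mg V 3
  intro u w
  by_contra hcon
  set H := G.induce ((({x, y} : Finset V) : Set V)ᶜ) with hH
  -- the component of `u`
  set P : V → Prop := fun v => ∃ h : v ∈ ((({x, y} : Finset V) : Set V)ᶜ), H.Reachable u ⟨v, h⟩
    with hP
  have hPu : P u := ⟨u.2, SimpleGraph.Reachable.refl _⟩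
  have hPw : ¬ P w := fun ⟨_, h⟩ => hcon h
  have hPx : ¬ P x := fun ⟨h, _⟩ => h (by simp)
  have hPy : ¬ P y := fun ⟨h, _⟩ => h (by simp)
  have hPadj : ∀ a b, P a → ¬ P b → G.Adj a b → b = x ∨ b = y := by
    intro a b ha hb hab
    by_contra hc
    obtain ⟨ha1, ha2⟩ := ha
    refine hb ⟨?_, ?_⟩
    · simpa using hc
    · refine ha2.trans (SimpleGraph.Adj.reachable ?_)
      exact hab
  set ω : Fin 3 → ℝ := p y - p x with hω
  set q : V → Fin 3 → ℝ := fun v => if P v then rot ω *ᵥ (p v - p x) else 0 with hq
  have hqP : ∀ v, P v → q v = rot ω *ᵥ (p v - p x) := fun v hv => if_pos hv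
  have hqN : ∀ v, ¬ P v → q v = 0 := fun v hv => if_neg hv
  have hqx : ∀ v, v = x ∨ v = y → rot ω *ᵥ (p v - p x) = 0 := by
    rintro v (rfl | rfl)
    · simp
    · exact rot_self ω
  have hmot : IsMotion G p q := by
    have key : ∀ a b, (p a - p b) ⬝ᵥ (rot ω *ᵥ (p a - p x) - rot ω *ᵥ (p b - p x)) = 0 := by
      intro a b
      rw [← Matrix.mulVec_sub]
      have : p a - p x - (p b - p x) = p a - p b := by abel
      rw [this]
      exact skew_dot_self (rot_skew ω) _
    intro a b hab
    by_cases ha : P a <;> by_cases hb : P b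
    · rw [hqP a ha, hqP b hb]
      exact key a b
    · rw [hqP a ha, hqN b hb, ← hqx b (hPadj a b ha hb hab)]
      exact key a b
    · rw [hqN a ha, hqP b hb, ← hqx a (hPadj b a hb ha hab.symm)]
      exact key a b
    · rw [hqN a ha, hqN b hb]
      simp
  have hr := (hp.toGen.genRigid_iff G).1 hG
  rw [rigidOn_univ_iff] at hr
  obtain ⟨A, b, hA, hb⟩ := hr q hmot
  have hwx : (w : V) ≠ x := fun h => w.2 (by rw [h]; simp)
  have hwy : (w : V) ≠ y := fun h => w.2 (by rw [h]; simp)
  have hux : (u : V) ≠ x := fun h => u.2 (by rw [h]; simp)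
  have huy : (u : V) ≠ y := fun h => u.2 (by rw [h]; simp)
  have c1 := triv_unique hp.toGen (S := {x, y, (w : V)})
    (by rw [card_eq_three.2 ⟨x, y, w, hxy, hwx.symm, hwy.symm, rfl⟩])
    (A := A) (A' := 0) (b := b) (b' := 0) hA (by simp) (by
      intro v hv
      rw [← hb v]
      simp only [mem_insert, mem_singleton] at hv
      rcases hv with rfl | rfl | rfl
      · rw [hqN _ hPx]; simp
      · rw [hqN _ hPy]; simp
      · rw [hqN _ hPw]; simp)
  have c2 := triv_unique hp.toGen (S := {x, y, (u : V)})
    (by rw [card_eq_three.2 ⟨x, y, u, hxy, hux.symm, huy.symm, rfl⟩])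
    (A := A) (A' := rot ω) (b := b) (b' := - (rot ω *ᵥ p x)) hA (rot_skew ω) (by
      intro v hv
      rw [← hb v]
      have e : rot ω *ᵥ p v + - (rot ω *ᵥ p x) = rot ω *ᵥ (p v - p x) := by
        rw [Matrix.mulVec_sub]; abel
      rw [e]
      simp only [mem_insert, mem_singleton] at hv
      rcases hv with rfl | rfl | rfl
      · rw [hqN _ hPx, hqx _ (Or.inl rfl)]
      · rw [hqN _ hPy, hqx _ (Or.inr rfl)]
      · rw [hqP _ hPu])
  have c3 : rot ω = 0 := by rw [← c2.1, c1.1]
  have c4 := rot_eq_zero c3
  -- but `p x ≠ p y`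
  have c5 := pos_finset hp (S := {x, y}) (by rw [card_pair hxy]; norm_num)
    (fun v => if v = x then 1 else -1) (by rw [sum_pair hxy]; simp [hxy.symm])
    (by
      rw [sum_pair hxy, if_pos rfl, if_neg hxy.symm]
      have : p y = p x := sub_eq_zero.1 c4
      rw [this]
      simp) x (by simp)
  simp at c5

open Classical in
/-- generically rigid graphs are three-connected -/
theorem threeConnected_of_rigid {G : SimpleGraph V} (h4 : 4 ≤ Fintype.card V)
    (hG : GenRigid 3 G) : ThreeConnected G := by
  refine ⟨h4, fun S hS => ?_⟩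
  have hne : Nonempty (((S : Set V)ᶜ : Set V)) := by
    by_contra hcon
    rw [not_nonempty_iff, Set.isEmpty_coe_sort, Set.compl_empty_iff] at hcon
    have h1 : S = univ := by
      rw [← coe_inj, hcon, coe_univ]
    rw [h1, card_univ] at hS
    omega
  refine { preconnected := ?_, nonempty := hne }
  intro u w
  by_cases huw : u = w
  · rw [huw]
  have huw' : (u : V) ≠ w := fun h => huw (Subtype.ext h)
  -- enlarge `S` to a set of two vertices
  obtain ⟨T, hT1, hT2, hT3⟩ := exists_subsuperset_card_eq (s := S)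
    (t := ({(u : V), (w : V)} : Finset V)ᶜ) (n := 2) (by
      intro v hv
      rw [mem_compl, mem_insert, mem_singleton]
      rintro (rfl | rfl)
      · exact u.2 hv
      · exact w.2 hv) hS (by
      rw [card_compl, card_pair huw']
      omega)
  obtain ⟨x, y, hxy, rfl⟩ := card_eq_two.1 hT3
  have hu : (u : V) ∈ ((({x, y} : Finset V) : Set V)ᶜ) := by
    intro h
    have := hT2 (mem_coe.1 h)
    simp at this
  have hw : (w : V) ∈ ((({x, y} : Finset V) : Set V)ᶜ) := by
    intro h
    have := hT2 (mem_coe.1 h)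
    simp at this
  have h1 := separation hG hxy ⟨u, hu⟩ ⟨w, hw⟩
  have hsub : ((({x, y} : Finset V) : Set V)ᶜ) ⊆ ((S : Set V)ᶜ) := by
    intro v hv hvS
    exact hv (mem_coe.2 (hT1 (mem_coe.1 hvS)))
  exact h1.map (SimpleGraph.induceHomOfLE G hsub).toHom

end Pool.Agent.TH349.Rig
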